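import Mathlib
import Pool.Agent.Run7.h533.AC.Ill

set_option autoImplicit false

/-!
# MP_80156a_co: Boltyanski's inequality `I(K) ≤ 2^d - 2^(d-h)` near the ball, in high dimension

Let `I(K)` be the illumination number of a convex body `K` in `ℝ^d`. No symmetry of `K` is assumed.

**Bodies at a bounded distance from the ball.** For every `D` there are `q < 2` and `d₀` such that
`I(K) ≤ q^d` if `d ≥ d₀` and `K` contains a ball of radius `r` and lies in a ball of radius `D r`.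
So `I(K) ≤ 2^(d-1) ≤ 2^d - 2^(d-h)` for all `h ≥ 1`, in particular for the Helly dimension
`h = him(K)`. The second inequality still holds if `D = a √(log₂ d)` with `a < 1/2` and
`d ≥ d₀(a)`. More generally let `C` be a symmetric convex body every `n` points of which have a
signed sum in `(1-δ) n C` (there are no almost isometric copies of `ℓ₁ⁿ`). Then `I(K) ≤ q^d` for
every `K` between a translate of `C` and a translate of `D C`, `d ≥ d₀`, where `q < 2` and `d₀`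
depend only on `n, δ, D`.

**The structure of counterexamples.** Let `α + β < 1` and `θ < 1` and let `d ≥ d₀(α, β, θ)`. If a
convex body `K` in `ℝ^d` does not satisfy `I(K) ≤ 2^d - 2^(d-h)` for some `1 ≤ h ≤ d` then it has
approximate simplices of an order `n ≥ α log₂ d`: points `x_j` of `K` and affine functions `ψ_j`,
nonnegative on `K`, with `ψ_j(x_j) = 1`, `ψ_j(x_i) ≤ d^(-β)` for `i ≠ j` and `θ ψ_j(o) ≤ 1`, for
every interior point `o` of `K`. Also there are points `x_i, y_i` of `K` (`i < N`), for some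
`N ≥ α log₂ d`, for which no signed sum `∑ ±(x_i - y_i)` is in `θ N (K - o)`.

The proof: `K` is covered by few translates `t + int K` of its interior, by the method of the
hand-in `BoundedDistanceToBall` of the problem `MP_eba1ef_gt` (random sums
`x_1/2 + x_2/4 + ... + x_N/2^N` and exchanges of points), and the directions `-t` illuminate the
boundary points of `K`.
-/

namespace Pool.Agent.Results.MP_80156a_co.BoundedDistanceFromBall

open Metric Filter Topology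
open scoped Pointwise
open Pool.Agent.Run7.h533.AC (sg simplexBound signBound)

/-- A convex body in `ℝ^d`. -/
def Body {d : ℕ} (K : Set (EuclideanSpace ℝ (Fin d))) : Prop :=
  Convex ℝ K ∧ IsCompact K ∧ (interior K).Nonempty

/-- `I(K) ≤ N`: at most `N` nonzero directions illuminate all boundary points of `K`. -/
def IlluminatedBy {d : ℕ} (K : Set (EuclideanSpace ℝ (Fin d))) (N : ℝ) : Prop :=
  ∃ L : Finset (EuclideanSpace ℝ (Fin d)), (L.card : ℝ) ≤ N ∧ (∀ v ∈ L, v ≠ 0) ∧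
    ∀ x ∈ frontier K, ∃ v ∈ L, ∃ t : ℝ, 0 < t ∧ x + t • v ∈ interior K

/-- Boltyanski's inequality `I(K) ≤ 2^d - 2^(d-h)`, for all `h` with `1 ≤ h ≤ d`. -/
def Boltyanski {d : ℕ} (K : Set (EuclideanSpace ℝ (Fin d))) : Prop :=
  ∀ h : ℕ, 1 ≤ h → h ≤ d → IlluminatedBy K (2 ^ d - 2 ^ (d - h))

/-- For all points `x_i, y_i` of `K` (`i < N`) some signed sum of the differences `x_i - y_i` is in
`θ N (K - o)`. -/
def SmallSignedSums {d : ℕ} (N : ℕ) (θ : ℝ) (o : EuclideanSpace ℝ (Fin d))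
    (K : Set (EuclideanSpace ℝ (Fin d))) : Prop :=
  ∀ x y : Fin N → EuclideanSpace ℝ (Fin d), (∀ i, x i ∈ K) → (∀ i, y i ∈ K) →
    ∃ s : Fin N → ℝ, (∀ i, s i = 1 ∨ s i = -1) ∧
      ∃ v ∈ K, ∑ i, s i • (x i - y i) = (θ * N) • (v - o)

/-- There are `n` points `x_j` of `K` and affine functions `ψ_j = h_j - φ_j` which are nonnegative
on `K`, with `ψ_j(x_j) = 1`, `ψ_j(x_i) ≤ ε` for `i ≠ j`, and `θ ψ_j(o) ≤ 1`. -/
def ApproxSimplex {d : ℕ} (n : ℕ) (ε θ : ℝ) (o : EuclideanSpace ℝ (Fin d))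
    (K : Set (EuclideanSpace ℝ (Fin d))) : Prop :=
  ∃ x : Fin n → EuclideanSpace ℝ (Fin d), (∀ j, x j ∈ K) ∧
    ∀ j, ∃ (φ : EuclideanSpace ℝ (Fin d) →L[ℝ] ℝ) (h : ℝ), (∀ y ∈ K, 0 ≤ h - φ y) ∧
      h - φ (x j) = 1 ∧ (∀ i, i ≠ j → h - φ (x i) ≤ ε) ∧ θ * (h - φ o) ≤ 1

/-- `C` is a centrally symmetric convex body, and every `n` points of `C` have a signed sum in
`(1-δ) n C`. -/
def NoEllOne {d : ℕ} (n : ℕ) (δ : ℝ) (C : Set (EuclideanSpace ℝ (Fin d))) : Prop :=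
  Body C ∧ (∀ x ∈ C, -x ∈ C) ∧
    ∀ x : Fin n → EuclideanSpace ℝ (Fin d), (∀ i, x i ∈ C) →
      ∃ s : Fin n → ℝ, (∀ i, s i = 1 ∨ s i = -1) ∧ ∑ i, s i • x i ∈ ((1 - δ) * n) • C

theorem ill {d : ℕ} {K : Set (EuclideanSpace ℝ (Fin d))} (hK : Body K) {N : ℝ}
    (h : ∃ T : Finset (EuclideanSpace ℝ (Fin d)),
      K + {0} ⊆ ⋃ t ∈ T, (fun x => t + x) '' interior (K + {0}) ∧ (T.card : ℝ) ≤ N) :
    IlluminatedBy K N := by
  obtain ⟨T, hT, hTc⟩ := h
  rw [Set.singleton_zero, add_zero] at hT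
  obtain ⟨L, h1, h2, h3⟩ := Pool.Agent.Run7.h533.AC.ill_of_cover hK.2.1 hT
  have h1' : (L.card : ℝ) ≤ T.card := by exact_mod_cast h1
  exact ⟨L, h1'.trans hTc, h2, h3⟩

theorem ill_mono {d : ℕ} {K : Set (EuclideanSpace ℝ (Fin d))} {N M : ℝ} (h : IlluminatedBy K N)
    (hNM : N ≤ M) : IlluminatedBy K M := by
  obtain ⟨L, h1, h2⟩ := h
  exact ⟨L, h1.trans hNM, h2⟩

theorem bolt_of_half {d : ℕ} {K : Set (EuclideanSpace ℝ (Fin d))} {N : ℝ}
    (h : IlluminatedBy K N) (hN : N ≤ 2 ^ d / 2) : Boltyanski K := by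
  intro m hm hmd
  exact ill_mono h (hN.trans (Pool.Agent.Run7.h533.AC.half_le hm hmd))

theorem signs {d : ℕ} (hd : 1 ≤ d) {K : Set (EuclideanSpace ℝ (Fin d))} (hK : Body K)
    {o : EuclideanSpace ℝ (Fin d)} (ho : o ∈ interior K) {N : ℕ} (hN : 1 ≤ N) {θ : ℝ}
    (hθ : 0 ≤ θ) (h : SmallSignedSums N θ o K) : IlluminatedBy K (signBound d N θ) := by
  refine ill hK (Pool.Agent.Run7.h533.AC.sign_all hd hK.1 hK.2.1 ho hN hθ ?_ {0})
  intro x y hx hy
  obtain ⟨s, hs, v, hv, hsv⟩ := h x y hx hy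
  obtain ⟨b, hb⟩ := Pool.Agent.Run7.h533.AC.bool_of_sign s hs
  refine ⟨b, v, hv, ?_⟩
  simp only [hb]
  exact hsv

theorem sg_sign (b : Bool) : sg b = 1 ∨ sg b = -1 := by
  cases b
  · exact Or.inr rfl
  · exact Or.inl rfl

theorem simplices {d : ℕ} (hd : 1 ≤ d) {K : Set (EuclideanSpace ℝ (Fin d))} (hK : Body K)
    {o : EuclideanSpace ℝ (Fin d)} (ho : o ∈ interior K) {k : ℕ} (hk : 1 ≤ k) {ε θ : ℝ}
    (hε0 : 0 < ε) (hε1 : ε ≤ 1) (hθ : 0 ≤ θ) (h : ¬ ApproxSimplex (k + 1) ε θ o K) :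
    IlluminatedBy K (simplexBound d k (ε * (1 - θ))) :=
  ill hK (Pool.Agent.Run7.h533.AC.simplex_all hd hK.1 hK.2.1 ho hk hε0 hε1 hθ h {0})

theorem signBound_exp {k : ℕ} (hk : 1 ≤ k) {θ : ℝ} (hθ : θ < 1) :
    ∃ q : ℝ, 0 < q ∧ q < 2 ∧ ∃ N : ℕ, ∀ d : ℕ, N ≤ d →
      signBound d k θ ≤ q ^ d ∧ q ^ d ≤ 2 ^ d / 2 := by
  have hk' : (0 : ℝ) < k := by exact_mod_cast hk
  have h1 : 0 < 1 - θ := by linarith
  obtain ⟨q, hq0, hq2, N, hN⟩ := Pool.Agent.Run7.h533.AC.size_exp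
    (C := 104 * (k : ℝ) ^ 2 * 2 ^ k) (c := (1 - θ) / (k * 2 ^ k)) (by positivity) (by positivity)
  obtain ⟨M, hM⟩ := Pool.Agent.Run7.h533.AC.q_half hq0 hq2
  refine ⟨q, hq0, hq2, N + M, fun d hd => ⟨?_, hM d (by omega)⟩⟩
  refine le_trans (le_of_eq ?_) (hN d (by omega))
  unfold signBound
  congr 2
  ring

/-- small signed sums for a body between two balls -/
theorem ball_signs {d : ℕ} {K : Set (EuclideanSpace ℝ (Fin d))} {o p : EuclideanSpace ℝ (Fin d)}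
    {r D θ : ℝ} (hr : 0 < r) (hθ : 0 < θ) (h1 : closedBall o r ⊆ K)
    (h2 : K ⊆ closedBall p (D * r)) {N : ℕ} (hN : 1 ≤ N) (hND : 4 * D ^ 2 ≤ θ ^ 2 * N) :
    SmallSignedSums N θ o K := by
  intro x y hx hy
  obtain ⟨b, v, hv, hbv⟩ := Pool.Agent.Run7.h533.AC.signs_ball hr hθ h1 h2 hN (by
    calc 4 * (D * r) ^ 2 = (4 * D ^ 2) * r ^ 2 := by ring
      _ ≤ (θ ^ 2 * N) * r ^ 2 := by gcongr) x y hx hy
  exact ⟨fun i => sg (b i), fun i => sg_sign _, v, hv, hbv⟩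

theorem ball_int {d : ℕ} {K : Set (EuclideanSpace ℝ (Fin d))} {o : EuclideanSpace ℝ (Fin d)}
    {r : ℝ} (hr : 0 < r) (h1 : closedBall o r ⊆ K) : o ∈ interior K :=
  mem_interior_iff_mem_nhds.2 (Filter.mem_of_superset (closedBall_mem_nhds o hr) h1)

/-- **Main theorem.** -/
theorem result :
    -- (1) convex bodies at the distance `D` from the Euclidean ball, `D ≤ a √(log₂ d)`, `a < 1/2`
    (∀ a : ℝ, 0 ≤ a → a < 1 / 2 → ∃ d₀ : ℕ, ∀ d : ℕ, d₀ ≤ d →
      ∀ (K : Set (EuclideanSpace ℝ (Fin d))) (o p : EuclideanSpace ℝ (Fin d)) (r : ℝ),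
        Body K → 0 < r → closedBall o r ⊆ K →
        K ⊆ closedBall p (a * Real.sqrt (Real.logb 2 d) * r) → Boltyanski K) ∧
    -- (2) the distance `D` is bounded
    (∀ D : ℝ, ∃ q : ℝ, 0 < q ∧ q < 2 ∧ ∃ d₀ : ℕ, ∀ d : ℕ, d₀ ≤ d →
      ∀ (K : Set (EuclideanSpace ℝ (Fin d))) (o p : EuclideanSpace ℝ (Fin d)) (r : ℝ),
        Body K → 0 < r → closedBall o r ⊆ K → K ⊆ closedBall p (D * r) →
        IlluminatedBy K (q ^ d) ∧ Boltyanski K) ∧
    -- (3) bounded distance from a symmetric body without almost isometric copies of `ℓ₁ⁿ`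
    (∀ (n : ℕ) (δ D : ℝ), 1 ≤ n → 0 < δ → δ ≤ 1 → 0 ≤ D →
      ∃ q : ℝ, 0 < q ∧ q < 2 ∧ ∃ d₀ : ℕ, ∀ d : ℕ, d₀ ≤ d →
      ∀ (C K : Set (EuclideanSpace ℝ (Fin d))) (o p : EuclideanSpace ℝ (Fin d)),
        NoEllOne n δ C → Body K → (∀ u ∈ C, o + u ∈ K) → (∀ x ∈ K, ∃ u ∈ C, x = p + D • u) →
        IlluminatedBy K (q ^ d) ∧ Boltyanski K) ∧
    -- (4) the structure of the bodies without Boltyanski's inequality
    (∀ α β θ : ℝ, 0 ≤ α → 0 ≤ β → α + β < 1 → 0 ≤ θ → θ < 1 → ∃ d₀ : ℕ, ∀ d : ℕ, d₀ ≤ d →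
      ∀ K : Set (EuclideanSpace ℝ (Fin d)), Body K → ¬ Boltyanski K → ∀ o ∈ interior K,
        (∃ n : ℕ, α * Real.logb 2 d ≤ n ∧ ApproxSimplex n ((d : ℝ) ^ (-β)) θ o K) ∧
        (∃ N : ℕ, α * Real.logb 2 d ≤ N ∧ ¬ SmallSignedSums N θ o K)) := by
  refine ⟨?_, ?_, ?_, ?_⟩
  · intro a ha0 ha1
    set θ : ℝ := Real.sqrt ((1 + 4 * a ^ 2) / 2) with hθ
    have h4a : 4 * a ^ 2 < 1 := by nlinarith
    have hθ2 : θ ^ 2 = (1 + 4 * a ^ 2) / 2 := Real.sq_sqrt (by positivity)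
    have hθ0 : 0 < θ := Real.sqrt_pos.2 (by positivity)
    have hθ1 : θ < 1 := by
      by_contra hcon
      push Not at hcon
      have : 1 ≤ θ ^ 2 := one_le_pow₀ hcon
      linarith
    set α : ℝ := 4 * a ^ 2 / θ ^ 2 with hα
    have hα0 : 0 ≤ α := by positivity
    have hα1 : α < 1 := by
      rw [hα, div_lt_one (by positivity)]
      linarith
    obtain ⟨d₀, hd₀⟩ := Pool.Agent.Run7.h533.AC.size_log (α := α) (β := 0) (c := (1 - θ) / 2)
      le_rfl (by linarith) (by linarith)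
    refine ⟨d₀ + 1, fun d hd K o p r hK hr h1 h2 => ?_⟩
    have hd1 : (1 : ℝ) ≤ d := by
      have : 1 ≤ d := by omega
      exact_mod_cast this
    have hL : 0 ≤ Real.logb 2 d := Real.logb_nonneg (by norm_num) hd1
    set N : ℕ := ⌈α * Real.logb 2 d⌉₊ + 1 with hN
    have hN1 : 1 ≤ N := by omega
    have hN2 : α * Real.logb 2 d ≤ N := by
      have : α * Real.logb 2 d ≤ (⌈α * Real.logb 2 d⌉₊ : ℝ) := Nat.le_ceil _
      rw [hN]
      push_cast
      linarith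
    have hN3 : (N : ℝ) ≤ α * Real.logb 2 d + 2 := by
      have : (⌈α * Real.logb 2 d⌉₊ : ℝ) < α * Real.logb 2 d + 1 :=
        Nat.ceil_lt_add_one (by positivity)
      rw [hN]
      push_cast
      linarith
    have h3 := hd₀ d (by omega) N hN1 hN3 ((1 - θ) / 2) (by
      rw [neg_zero, Real.rpow_zero, mul_one])
    refine bolt_of_half (signs (by omega) hK (ball_int hr h1) hN1 hθ0.le
      (ball_signs hr hθ0 h1 h2 hN1 ?_))
      (Pool.Agent.Run7.h533.AC.signBound_half (by omega) hN1 h3).le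
    have e1 : 4 * (a * Real.sqrt (Real.logb 2 d)) ^ 2 = θ ^ 2 * (α * Real.logb 2 d) := by
      rw [mul_pow, Real.sq_sqrt hL, hα]
      field_simp
    rw [e1]
    gcongr
  · intro D
    set N : ℕ := ⌈16 * D ^ 2⌉₊ + 1 with hN
    have hN1 : 1 ≤ N := by omega
    have hN2 : 16 * D ^ 2 ≤ N := by
      have : 16 * D ^ 2 ≤ (⌈16 * D ^ 2⌉₊ : ℝ) := Nat.le_ceil _
      rw [hN]
      push_cast
      linarith
    obtain ⟨q, hq0, hq2, d₀, hd₀⟩ := signBound_exp hN1 (show (1 / 2 : ℝ) < 1 by norm_num)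
    refine ⟨q, hq0, hq2, d₀ + 1, fun d hd K o p r hK hr h1 h2 => ?_⟩
    obtain ⟨e1, e2⟩ := hd₀ d (by omega)
    have h3 := signs (by omega) hK (ball_int hr h1) hN1 (by norm_num)
      (ball_signs (θ := 1 / 2) hr (by norm_num) h1 h2 hN1 (by linarith))
    exact ⟨ill_mono h3 e1, bolt_of_half h3 (e1.trans e2)⟩
  · intro n δ D hn hδ0 hδ1 hD
    have hlim : Tendsto (fun j : ℕ => (1 - δ) ^ j * (2 * D)) atTop (𝓝 0) := by
      have := (tendsto_pow_atTop_nhds_zero_of_lt_one (show 0 ≤ 1 - δ by linarith)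
        (by linarith)).mul_const (2 * D)
      rwa [zero_mul] at this
    obtain ⟨j, hj⟩ := (hlim.eventually (gt_mem_nhds (show (0 : ℝ) < 1 / 2 by norm_num))).exists
    have hN1 : 1 ≤ n ^ j := Nat.one_le_pow _ _ hn
    obtain ⟨q, hq0, hq2, d₀, hd₀⟩ := signBound_exp hN1 (show (1 / 2 : ℝ) < 1 by norm_num)
    refine ⟨q, hq0, hq2, d₀ + 1, fun d hd C K o p hC hK h1 h2 => ?_⟩
    obtain ⟨hCb, hCs, H⟩ := hC
    obtain ⟨e1, e2⟩ := hd₀ d (by omega)
    -- `o` is an interior point of `K`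
    have ho : o ∈ interior K := by
      have hC0 : (0 : EuclideanSpace ℝ (Fin d)) ∈ interior C :=
        mem_interior_iff_mem_nhds.2
          (Pool.Agent.Run7.h533.AC.zero_int hCb.1 hCb.2.2 hCs)
      have hsub : (fun x => o + x) '' interior C ⊆ K := by
        rintro _ ⟨u, hu, rfl⟩
        exact h1 u (interior_subset hu)
      have hopen : IsOpen ((fun x => o + x) '' interior C) :=
        (Homeomorph.addLeft o).isOpenMap _ isOpen_interior
      exact interior_maximal hsub hopen ⟨0, hC0, by simp⟩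
    have h3 : IlluminatedBy K (signBound d (n ^ j) (1 / 2)) := by
      refine signs (by omega) hK ho hN1 (by norm_num) ?_
      intro x y hx hy
      obtain ⟨b, v, hv, hbv⟩ := Pool.Agent.Run7.h533.AC.signs_body hCb.1 hCb.2.1 hCb.2.2 hCs hn
        hδ1 H hD (show (0 : ℝ) < 1 / 2 by norm_num) h1 h2 hj.le x y hx hy
      exact ⟨fun i => sg (b i), fun i => sg_sign _, v, hv, hbv⟩
    exact ⟨ill_mono h3 e1, bolt_of_half h3 (e1.trans e2)⟩
  · intro α β θ hα hβ hαβ hθ0 hθ1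
    obtain ⟨d₀, hd₀⟩ := Pool.Agent.Run7.h533.AC.size_log (α := α) (β := β) (c := (1 - θ) / 2) hβ
      hαβ (by linarith)
    refine ⟨d₀ + 1, fun d hd K hK hfew o ho => ?_⟩
    have hd1 : (1 : ℝ) ≤ d := by
      have : 1 ≤ d := by omega
      exact_mod_cast this
    have hd0 : (0 : ℝ) < d := by linarith
    have hL : 0 ≤ Real.logb 2 d := Real.logb_nonneg (by norm_num) hd1
    set k : ℕ := ⌈α * Real.logb 2 d⌉₊ + 1 with hk
    have hk1 : 1 ≤ k := by omega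
    have hk2 : α * Real.logb 2 d ≤ k := by
      have : α * Real.logb 2 d ≤ (⌈α * Real.logb 2 d⌉₊ : ℝ) := Nat.le_ceil _
      rw [hk]
      push_cast
      linarith
    have hk3 : (k : ℝ) ≤ α * Real.logb 2 d + 2 := by
      have : (⌈α * Real.logb 2 d⌉₊ : ℝ) < α * Real.logb 2 d + 1 :=
        Nat.ceil_lt_add_one (by positivity)
      rw [hk]
      push_cast
      linarith
    have hdβ : (d : ℝ) ^ (-β) ≤ 1 := Real.rpow_le_one_of_one_le_of_nonpos hd1 (by linarith)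
    have hdβ0 : 0 < (d : ℝ) ^ (-β) := Real.rpow_pos_of_pos hd0 _
    refine ⟨⟨k + 1, ?_, ?_⟩, ⟨k, hk2, ?_⟩⟩
    · push_cast
      linarith
    · by_contra hcon
      have h3 := hd₀ d (by omega) k hk1 hk3 ((d : ℝ) ^ (-β) * (1 - θ) / 2) (le_of_eq (by ring))
      exact hfew (bolt_of_half (simplices (by omega) hK ho hk1 hdβ0 hdβ hθ0 hcon)
        (Pool.Agent.Run7.h533.AC.simplexBound_half (by omega) hk1 h3).le)
    · intro hcon
      have h3 := hd₀ d (by omega) k hk1 hk3 ((1 - θ) / 2) (by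
        have : 0 ≤ (1 - θ) / 2 := by linarith
        calc (1 - θ) / 2 * (d : ℝ) ^ (-β) ≤ (1 - θ) / 2 * 1 := by gcongr
          _ = (1 - θ) / 2 := mul_one _)
      exact hfew (bolt_of_half (signs (by omega) hK ho hk1 hθ0 hcon)
        (Pool.Agent.Run7.h533.AC.signBound_half (by omega) hk1 h3).le)

end Pool.Agent.Results.MP_80156a_co.BoundedDistanceFromBall
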