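import Mathlib
import Pool.Agent.Run7.h533.AC.Ill
import Pool.Agent.Run7.h533.Kept.CircumradiusAndMoments

set_option autoImplicit false

/-!
# MP_80156a_co: Boltyanski's inequality for convex bodies with `R² < 3 r²`, and for cut cubes

Let `I(K)` be the illumination number of a convex body `K` in `ℝ^d`. No symmetry of `K` is assumed.

**Cubes with cut off vertices.** Let `0 < δ ≤ 1/2`. There are `q < 2` and `d₀` such that
`I(K) ≤ q^d`, hence `I(K) ≤ 2^(d-1) ≤ 2^d - 2^(d-h)` for all `h ≥ 1`, for every convex body `K` in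
the cube `[-1,1]^d`, `d ≥ d₀`, with `|x|² ≤ (1-δ) d` for all points `x` of `K` and with volume at
least `e^(-δ² d/240) 2^d`. (The cube itself needs `2^d` directions.)

**Criterion.** Let `L` be a linear map from `ℝ^d` to some `ℝ^m` and `c` a point of `ℝ^m`, let
`|Lx - c| ≤ R` for all points `x` of `K`, let `|Lx - c| ≤ r` for a share `≤ τ` of the volume of `K`
only, let each halfspace `⟨Lx - c, u⟩ ≥ s`, `|u| = 1`, contain at most the share `τ` of `K`, and let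
`(1+δ) R² + 2 s² ≤ 3 r²`, where `0 < δ ≤ 1` and `0 ≤ s ≤ R`. If `τ ≤ d^(-N)` and `d ≥ d₀`, where `N`
and `d₀` depend only on `δ`, then `I(K) ≤ 2^d - 2^(d-h)` for all `1 ≤ h ≤ d`. If `τ ≤ θ^d` with
`θ < 1` then `I(K) ≤ q^d` for `d ≥ d₀`, where `q < 2` and `d₀` depend only on `δ` and `θ`.

The proof: by the method of `Pool.Agent.Run7.h533.AC` (random sums `x_1/2 + x_2/4 + ...` and the
variance of such sums) `K` is covered by few translates `t + int K` of its interior; the directions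
`-t` illuminate the boundary points.
-/

namespace Pool.Agent.Results.MP_80156a_co.CircumradiusAndMoments

open MeasureTheory
open scoped Pointwise ENNReal
open Pool.Agent.Run7.h533.AC (momentBound)
open Pool.Agent.Results.MP_eba1ef_gt.CircumradiusAndMoments (Body SmallShare Spread SumsCovered
  criterion cut_cube size_q logb_pos')

/-- `I(K) ≤ N`: at most `N` nonzero directions illuminate all boundary points of `K`. -/
def IlluminatedBy {d : ℕ} (K : Set (EuclideanSpace ℝ (Fin d))) (N : ℝ) : Prop :=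
  ∃ L : Finset (EuclideanSpace ℝ (Fin d)), (L.card : ℝ) ≤ N ∧ (∀ v ∈ L, v ≠ 0) ∧
    ∀ x ∈ frontier K, ∃ v ∈ L, ∃ t : ℝ, 0 < t ∧ x + t • v ∈ interior K

/-- Boltyanski's inequality `I(K) ≤ 2^d - 2^(d-h)`, for all `h` with `1 ≤ h ≤ d`. -/
def Boltyanski {d : ℕ} (K : Set (EuclideanSpace ℝ (Fin d))) : Prop :=
  ∀ h : ℕ, 1 ≤ h → h ≤ d → IlluminatedBy K (2 ^ d - 2 ^ (d - h))

theorem ill {d : ℕ} {K : Set (EuclideanSpace ℝ (Fin d))} (hK : Body K) {N : ℝ}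
    (h : SumsCovered N K) : IlluminatedBy K N := by
  obtain ⟨-, T, hTc, hT⟩ := h {0} (convex_singleton 0) isCompact_singleton
    (Set.singleton_nonempty 0)
  rw [Set.singleton_zero, add_zero] at hT
  obtain ⟨L, h1, h2, h3⟩ := Pool.Agent.Run7.h533.AC.ill_of_cover hK.2.1 hT
  have h1' : (L.card : ℝ) ≤ T.card := by exact_mod_cast h1
  exact ⟨L, h1'.trans hTc, h2, h3⟩

theorem ill_mono {d : ℕ} {K : Set (EuclideanSpace ℝ (Fin d))} {N M : ℝ} (h : IlluminatedBy K N)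
    (hNM : N ≤ M) : IlluminatedBy K M := by
  obtain ⟨L, h1, h2⟩ := h
  exact ⟨L, h1.trans hNM, h2⟩

theorem bolt_of_half {d : ℕ} {K : Set (EuclideanSpace ℝ (Fin d))} {N : ℝ}
    (h : IlluminatedBy K N) (hN : N ≤ 2 ^ d / 2) : Boltyanski K := by
  intro m hm hmd
  exact ill_mono h (hN.trans (Pool.Agent.Run7.h533.AC.half_le hm hmd))

theorem size_half {δ : ℝ} (hδ0 : 0 < δ) (hδ1 : δ ≤ 1) :
    ∃ N d₀ : ℕ, ∀ d : ℕ, d₀ ≤ d → momentBound d δ (1 / (d : ℝ) ^ N) ≤ 2 ^ d / 2 := by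
  have hL := logb_pos' hδ0 hδ1
  obtain ⟨N, d₀, hN⟩ := Pool.Agent.Run7.h533.AC.num_poly
    (C := 2 * (11000 * Real.logb 2 (168 / δ) ^ 2 / δ)) (c := 1 / Real.logb 2 (168 / δ))
    (by positivity) (by positivity) one_pos
  refine ⟨N, d₀, fun d hd => ?_⟩
  have h := hN d hd
  rw [one_mul] at h
  have h2 : 2 * momentBound d δ (1 / (d : ℝ) ^ N) < 2 ^ d := by
    refine lt_of_le_of_lt (le_of_eq ?_) h
    unfold momentBound
    ring
  linarith

/-- **Main theorem.** -/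
theorem result :
    -- cubes with cut off vertices
    (∀ δ : ℝ, 0 < δ → δ ≤ 1 / 2 → ∃ q : ℝ, 0 < q ∧ q < 2 ∧ ∃ d₀ : ℕ, ∀ d : ℕ, d₀ ≤ d →
      ∀ K : Set (EuclideanSpace ℝ (Fin d)), Body K →
        (∀ x ∈ K, (∀ i, |x i| ≤ 1) ∧ ‖x‖ ^ 2 ≤ (1 - δ) * d) →
        ENNReal.ofReal (2 ^ d * Real.exp (-(δ ^ 2 / 240 * d))) ≤ volume K →
        IlluminatedBy K (q ^ d) ∧ Boltyanski K) ∧
    -- the criterion
    (∀ δ : ℝ, 0 < δ → δ ≤ 1 → ∃ N d₀ : ℕ, ∀ d : ℕ, d₀ ≤ d →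
      ∀ (m : ℕ) (K : Set (EuclideanSpace ℝ (Fin d)))
        (L : EuclideanSpace ℝ (Fin d) →L[ℝ] EuclideanSpace ℝ (Fin m))
        (c : EuclideanSpace ℝ (Fin m)) (R r s : ℝ), Body K →
        Spread L c R r s (1 / (d : ℝ) ^ N) δ K → Boltyanski K) ∧
    -- the criterion with an exponentially small share
    (∀ δ θ : ℝ, 0 < δ → δ ≤ 1 → 0 ≤ θ → θ < 1 → ∃ q : ℝ, 0 < q ∧ q < 2 ∧ ∃ d₀ : ℕ, ∀ d : ℕ,
      d₀ ≤ d → ∀ (m : ℕ) (K : Set (EuclideanSpace ℝ (Fin d)))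
        (L : EuclideanSpace ℝ (Fin d) →L[ℝ] EuclideanSpace ℝ (Fin m))
        (c : EuclideanSpace ℝ (Fin m)) (R r s : ℝ), Body K → Spread L c R r s (θ ^ d) δ K →
        IlluminatedBy K (q ^ d) ∧ Boltyanski K) := by
  have key : ∀ δ θ : ℝ, 0 < δ → δ ≤ 1 → 0 ≤ θ → θ < 1 → ∃ q : ℝ, 0 < q ∧ q < 2 ∧ ∃ d₀ : ℕ,
      ∀ d : ℕ, d₀ ≤ d → ∀ (m : ℕ) (K : Set (EuclideanSpace ℝ (Fin d)))
        (L : EuclideanSpace ℝ (Fin d) →L[ℝ] EuclideanSpace ℝ (Fin m))
        (c : EuclideanSpace ℝ (Fin m)) (R r s : ℝ), Body K → Spread L c R r s (θ ^ d) δ K →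
        IlluminatedBy K (q ^ d) ∧ Boltyanski K := by
    intro δ θ hδ0 hδ1 hθ0 hθ1
    obtain ⟨q, hq0, hq2, N, hN⟩ := size_q hδ0 hδ1 hθ0 hθ1
    obtain ⟨M, hM⟩ := Pool.Agent.Run7.h533.AC.q_half hq0 hq2
    refine ⟨q, hq0, hq2, N + M + 1, fun d hd m K L c R r s hK h => ?_⟩
    have h1 := ill hK (criterion (by omega) hK L c (pow_le_one₀ hθ0 hθ1.le) hδ0 hδ1 h)
    have h2 := hN d (by omega)
    exact ⟨ill_mono h1 h2, bolt_of_half h1 (h2.trans (hM d (by omega)))⟩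
  refine ⟨?_, ?_, key⟩
  · intro δ hδ0 hδ1
    have hθ1 : Real.exp (-(δ ^ 2 / 240)) < 1 := by
      rw [Real.exp_lt_one_iff]
      have : 0 < δ ^ 2 := by positivity
      linarith
    obtain ⟨q, hq0, hq2, N, hN⟩ := key (δ / 2) (Real.exp (-(δ ^ 2 / 240))) (by linarith)
      (by linarith) (Real.exp_pos _).le hθ1
    refine ⟨q, hq0, hq2, N + 1, fun d hd K hK hKs hV => ?_⟩
    exact hN d (by omega) d K _ 0 _ _ _ hK (cut_cube (by omega) hδ0 hδ1 hKs hV)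
  · intro δ hδ0 hδ1
    obtain ⟨N, d₀, hN⟩ := size_half hδ0 hδ1
    refine ⟨N, d₀ + 1, fun d hd m K L c R r s hK h => ?_⟩
    have hd1 : (1 : ℝ) ≤ d := by
      have : 1 ≤ d := by omega
      exact_mod_cast this
    have hτ : 1 / (d : ℝ) ^ N ≤ 1 := by
      rw [div_le_one (by positivity)]
      exact one_le_pow₀ hd1
    exact bolt_of_half (ill hK (criterion (by omega) hK L c hτ hδ0 hδ1 h)) (hN d (by omega))

end Pool.Agent.Results.MP_80156a_co.CircumradiusAndMoments
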