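import Mathlib
import Pool.Agent.Run7.h533.AC.Ill
import Pool.Agent.Results.MP_eba1ef_gt.LatticeSumsOfBodies

set_option autoImplicit false

/-!
# MP_80156a_co: Boltyanski's inequality for lattice sums of convex bodies of bounded dimension

Let `h_ω`, `ω ∈ Ω`, be nonnegative sublinear functions on `ℝ^d`, each of which vanishes on a subspace
of codimension at most `n` (gauges of convex sets of dimension at most `n`, composed with linear
maps; there is no symmetry), let `N` be a lattice norm of functions on the compact space `Ω` which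
is `q`-concave with constant one, and let `K = {x | N(h(x)) ≤ 1}` be bounded. For instance
`K = {x | ∑ g_j(T_j x)^q ≤ 1}` with gauges `g_j` of arbitrary convex bodies in `ℝ^n`.

If the gauge of `K` is at most `a` at the opposite of the centroid (`a = 0` if the centroid is `0`)
and `d ≥ d₀(n, q, a)` then `I(K) ≤ 2^(d-1)`, so `I(K) ≤ 2^d - 2^(d-h)` for all `1 ≤ h ≤ d`.

The proof: this is the theorem of helper924 in the hand-in `LatticeSumsOfBodies` of the problem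
`MP_eba1ef_gt`, whose quantitative bound is smaller than `2^(d-1)` for large `d`.
-/

namespace Pool.Agent.Results.MP_80156a_co.LatticeSums

open MeasureTheory
open Pool.Agent.Results.MP_eba1ef_gt.LatticeSumsOfBodies (IsLatticeSum IsCentred)
open Pool.Agent.Run7.h924.Lat (IsQLat)
open Pool.Agent.Run7.h924.Sm (IsFam)

universe u

/-- `I(K) ≤ N`: at most `N` nonzero directions illuminate all boundary points of `K`. -/
def IlluminatedBy {d : ℕ} (K : Set (EuclideanSpace ℝ (Fin d))) (N : ℝ) : Prop :=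
  ∃ L : Finset (EuclideanSpace ℝ (Fin d)), (L.card : ℝ) ≤ N ∧ (∀ v ∈ L, v ≠ 0) ∧
    ∀ x ∈ frontier K, ∃ v ∈ L, ∃ t : ℝ, 0 < t ∧ x + t • v ∈ interior K

/-- Boltyanski's inequality `I(K) ≤ 2^d - 2^(d-h)`, for all `h` with `1 ≤ h ≤ d`. -/
def Boltyanski {d : ℕ} (K : Set (EuclideanSpace ℝ (Fin d))) : Prop :=
  ∀ h : ℕ, 1 ≤ h → h ≤ d → IlluminatedBy K (2 ^ d - 2 ^ (d - h))

theorem compact_of_sum {d n : ℕ} {q : ℝ} {K : Set (EuclideanSpace ℝ (Fin d))}
    (h : IsLatticeSum.{u} n q K) : IsCompact K := by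
  obtain ⟨hb, Ω, hΩ, hΩc, N, F, L, H, hK⟩ := h
  have hg := H.isG_norm L
  have hK' : K = {x | (fun x => N (F x)) x ≤ 1} := hK
  rw [hK'] at hb ⊢
  obtain ⟨c, hc, hp⟩ := Pool.Agent.Run7.h924.As.bdd_const hg hb
  exact Pool.Agent.Run7.h924.As.gb_compact hg hc hp

theorem main (n : ℕ) (q a : ℝ) (hq : 1 ≤ q) (ha : 0 ≤ a) : ∃ d₀ : ℕ, ∀ d : ℕ, d₀ ≤ d →
    ∀ K : Set (EuclideanSpace ℝ (Fin d)), IsLatticeSum.{u} n q K → IsCentred K a →
      Boltyanski K := by
  obtain ⟨d₀, hd₀⟩ := Pool.Agent.Run7.h924.Sm.exists_dim n (max q 2) (1 + 2 * a)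
    (le_max_right _ _) (by linarith)
  refine ⟨max d₀ 2, fun d hd K hK hcen => ?_⟩
  have hd2 : 2 ≤ d := le_trans (le_max_right _ _) hd
  obtain ⟨h6, hlog⟩ := hd₀ d (le_trans (le_max_left _ _) hd)
  set r : ℝ := max q 2 with hr
  set s : ℝ := (d : ℝ) ^ (1 / (r + 1)) / (5000000 * (1 + a) * (n + r) ^ (3 / 2 : ℝ) * r) with hs
  have hss : (d : ℝ) ^ (1 / (r + 1)) / (5000000 * (1 + (1 + 2 * a)) * (n + r) ^ (3 / 2 : ℝ) * r)
      = s / 2 := by
    rw [hs, div_div]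
    congr 1
    ring
  rw [hss] at h6 hlog
  obtain ⟨T, h1, h2, -⟩ :=
    Pool.Agent.Results.MP_eba1ef_gt.LatticeSumsOfBodies.result.{u, 0, 0}.1 d n q a hd2 hq ha K hK
      hcen r s rfl hs
  obtain ⟨L, e1, e2, e3⟩ := Pool.Agent.Run7.h533.AC.ill_of_cover (compact_of_sum hK) h1
  have hd' : (2 : ℝ) ≤ d := by exact_mod_cast hd2
  -- the bound is at most `2^(d-1)`
  have hnum := Pool.Agent.Run7.h924.Sm.strict_num d hd2 (s / 2) h6 hlog
  have hlog0 : 0 ≤ Real.log (2 * (d : ℝ) ^ 2 + 2 * d + 1) := Real.log_nonneg (by nlinarith)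
  have hE : Real.exp (-(2 * s)) = Real.exp (-(2 * (s / 2))) * Real.exp (-s) := by
    rw [← Real.exp_add]
    congr 1
    ring
  have hEs : Real.exp (-s) ≤ 1 / 4 := by
    have h12 : (12 : ℝ) ≤ s := by linarith
    have h13 : s + 1 ≤ Real.exp s := Real.add_one_le_exp s
    rw [Real.exp_neg, inv_le_comm₀ (Real.exp_pos _) (by norm_num)]
    norm_num
    linarith
  have hX : 13 * d * Real.log (2 * d ^ 2 + 2 * d + 1) * Real.exp (-(2 * s)) ≤ 1 / 4 := by
    rw [hE]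
    have h7 : 0 ≤ d * Real.log (2 * d ^ 2 + 2 * d + 1) * Real.exp (-(2 * (s / 2))) := by
      positivity
    calc 13 * d * Real.log (2 * d ^ 2 + 2 * d + 1) *
          (Real.exp (-(2 * (s / 2))) * Real.exp (-s))
        = (13 * (d * Real.log (2 * d ^ 2 + 2 * d + 1) * Real.exp (-(2 * (s / 2))))) *
          Real.exp (-s) := by ring
      _ ≤ 1 * (1 / 4) := by
          gcongr
          linarith
      _ = 1 / 4 := one_mul _
  have hP : (4 : ℝ) ≤ 2 ^ d := by
    calc (4 : ℝ) = 2 ^ 2 := by norm_num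
      _ ≤ 2 ^ d := pow_le_pow_right₀ (by norm_num) hd2
  have hT : (T.card : ℝ) ≤ 2 ^ d / 2 := by
    calc (T.card : ℝ) ≤ 1 + 13 * d * Real.log (2 * d ^ 2 + 2 * d + 1) * 2 ^ d
          * Real.exp (-(2 * s)) := h2
      _ = 1 + (13 * d * Real.log (2 * d ^ 2 + 2 * d + 1) * Real.exp (-(2 * s))) * 2 ^ d := by ring
      _ ≤ 2 ^ d / 4 + 1 / 4 * 2 ^ d := by
          gcongr
          linarith
      _ = 2 ^ d / 2 := by ring
  intro h hh1 hhd
  have e1' : (L.card : ℝ) ≤ T.card := by exact_mod_cast e1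
  exact ⟨L, e1'.trans (hT.trans (Pool.Agent.Run7.h533.AC.half_le hh1 hhd)), e2, e3⟩

/-- **Main theorem.** -/
theorem result :
    -- lattice sums
    (∀ (n : ℕ) (q a : ℝ), 1 ≤ q → 0 ≤ a → ∃ d₀ : ℕ, ∀ d : ℕ, d₀ ≤ d →
      ∀ K : Set (EuclideanSpace ℝ (Fin d)), IsLatticeSum.{u} n q K → IsCentred K a →
        Boltyanski K) ∧
    -- `ℓ_q`-sums of convex sets of dimension `n`, and their sections
    (∀ (n : ℕ) (q a : ℝ), 1 ≤ q → 0 ≤ a → ∃ d₀ : ℕ, ∀ d : ℕ, d₀ ≤ d →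
      ∀ (m : ℕ) (B : Fin m → Set (EuclideanSpace ℝ (Fin n))), (∀ j, Convex ℝ (B j)) →
        (∀ j, (0 : EuclideanSpace ℝ (Fin n)) ∈ interior (B j)) →
        ∀ (T : Fin m → EuclideanSpace ℝ (Fin d) →ₗ[ℝ] EuclideanSpace ℝ (Fin n))
          (K : Set (EuclideanSpace ℝ (Fin d))), K = {x | ∑ j, gauge (B j) (T j x) ^ q ≤ 1} →
          Bornology.IsBounded K → IsCentred K a → Boltyanski K) ∧
    -- the centroid of a centrally symmetric body
    (∀ (d : ℕ) (K : Set (EuclideanSpace ℝ (Fin d))), MeasurableSet K → (∀ x ∈ K, -x ∈ K) →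
      IsCentred K 0) := by
  refine ⟨fun n q a hq ha => main.{u} n q a hq ha, fun n q a hq ha => ?_,
    fun d K hK hs => Pool.Agent.Results.MP_eba1ef_gt.LatticeSumsOfBodies.centred_of_symm K hK hs⟩
  obtain ⟨d₀, hd₀⟩ := main.{0} n q a hq ha
  obtain ⟨-, -, -, -, h5, -⟩ :=
    Pool.Agent.Results.MP_eba1ef_gt.LatticeSumsOfBodies.result.{0, 0, 0}
  exact ⟨d₀, fun d hd m B hB hB0 T K hK hb hcen =>
    hd₀ d hd K (h5 d n m q hq B hB hB0 T K hK hb) hcen⟩

end Pool.Agent.Results.MP_80156a_co.LatticeSums
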