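import Mathlib
import Pool.Agent.Run7.h533.AC.Ill
import Pool.Agent.Results.MP_eba1ef_gt.CapsOfSmallVolume

set_option autoImplicit false

/-!
# MP_80156a_co: Boltyanski's inequality for convex bodies with thin supporting caps

Let `K` be a convex body in `ℝ^d` with barycentre `0` and gauge `g`; no symmetry is assumed. For
each `z ≠ 0` in `K` let `bd z = z / g(z)` be the boundary point on the ray of `z`; shares of the
boundary are measured by the volume of the corresponding points `z`. Let `0 < δ, β ≤ 1`.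

* If for a share `β` of the points `z` some supporting halfspace at `bd z` cuts off a cap of the
  relative depth `δ` with at most the fraction `d^(-N)` of the volume of `K`, `N = N(δ, β)`, then
  `I(K) ≤ 2^d - 2^(d-h)` for all `1 ≤ h ≤ d`, `d ≥ d₀(δ, β)`. The same holds if for a share `β` of
  the points `z` the midpoint of `bd z` and `y` is in `(1-δ) K` for all `y` in `K` but the fraction
  `d^(-N)`, or if the midpoints of all but the share `d^(-N)/4` of the pairs of points of `K` are in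
  `(1-δ) K`.
* With `θ^d`, `θ < 1`, instead of `d^(-N)` one has `I(K) ≤ q^d` with `q = q(δ, β, θ) < 2`. So it is
  enough that `K` is uniformly convex at a share `β` of its boundary points.
* It is also enough that `K` contains a ball of radius `κ R` and that a share `β` of its boundary
  points lies on the sphere of some ball of radius `R` which contains `K`; `q = q(κ, β)`.

The proof: the coverings by translates of the interior in the hand-in `CapsOfSmallVolume` of the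
problem `MP_eba1ef_gt`.
-/

namespace Pool.Agent.Results.MP_80156a_co.ThinCaps

open MeasureTheory Metric
open scoped Pointwise ENNReal
open Pool.Agent.Results.MP_eba1ef_gt.CapsOfSmallVolume (Body CoveredByAtMost SumsCovered HasShare
  bd thinPart rotundPart uniformPart curvedPart FewFlatPairs capBound logb_pos')

/-- `I(K) ≤ N`: at most `N` nonzero directions illuminate all boundary points of `K`. -/
def IlluminatedBy {d : ℕ} (K : Set (EuclideanSpace ℝ (Fin d))) (N : ℝ) : Prop :=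
  ∃ L : Finset (EuclideanSpace ℝ (Fin d)), (L.card : ℝ) ≤ N ∧ (∀ v ∈ L, v ≠ 0) ∧
    ∀ x ∈ frontier K, ∃ v ∈ L, ∃ t : ℝ, 0 < t ∧ x + t • v ∈ interior K

/-- Boltyanski's inequality `I(K) ≤ 2^d - 2^(d-h)`, for all `h` with `1 ≤ h ≤ d`. -/
def Boltyanski {d : ℕ} (K : Set (EuclideanSpace ℝ (Fin d))) : Prop :=
  ∀ h : ℕ, 1 ≤ h → h ≤ d → IlluminatedBy K (2 ^ d - 2 ^ (d - h))

theorem ill {d : ℕ} {K : Set (EuclideanSpace ℝ (Fin d))} (hK : Body K) {N : ℝ}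
    (h : SumsCovered N K) : IlluminatedBy K N := by
  obtain ⟨-, T, hTc, hT⟩ := h {0} (convex_singleton 0) isCompact_singleton
    (Set.singleton_nonempty 0)
  rw [Set.singleton_zero, add_zero] at hT
  obtain ⟨L, h1, h2, h3⟩ := Pool.Agent.Run7.h533.AC.ill_of_cover hK.2.1 hT
  have h1' : (L.card : ℝ) ≤ T.card := by exact_mod_cast h1
  exact ⟨L, h1'.trans hTc, h2, h3⟩

theorem ill_mono {d : ℕ} {K : Set (EuclideanSpace ℝ (Fin d))} {N M : ℝ} (h : IlluminatedBy K N)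
    (hNM : N ≤ M) : IlluminatedBy K M := by
  obtain ⟨L, h1, h2⟩ := h
  exact ⟨L, h1.trans hNM, h2⟩

theorem bolt_of_half {d : ℕ} {K : Set (EuclideanSpace ℝ (Fin d))} {N : ℝ}
    (h : IlluminatedBy K N) (hN : N ≤ 2 ^ d / 2) : Boltyanski K := by
  intro m hm hmd
  exact ill_mono h (hN.trans (Pool.Agent.Run7.h533.AC.half_le hm hmd))

theorem size_half {δ β : ℝ} (hδ0 : 0 < δ) (hδ1 : δ ≤ 1) (hβ : 0 < β) :
    ∃ N d₀ : ℕ, ∀ d : ℕ, d₀ ≤ d → capBound d δ (1 / (d : ℝ) ^ N) β ≤ 2 ^ d / 2 := by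
  have hL : 1 ≤ Real.logb 2 (16 / δ) := logb_pos' (by norm_num) hδ0 hδ1
  obtain ⟨N, d₀, hN⟩ := Pool.Agent.Run7.h533.AC.num_poly
    (C := 2 * (300 * Real.logb 2 (16 / δ) ^ 2))
    (c := β * δ ^ 2 / (72 * Real.logb 2 (16 / δ) ^ 2)) (by positivity) (by positivity) one_pos
  refine ⟨N, d₀, fun d hd => ?_⟩
  have h := hN d hd
  rw [one_mul] at h
  have h2 : 2 * capBound d δ (1 / (d : ℝ) ^ N) β < 2 ^ d := by
    refine lt_of_le_of_lt (le_of_eq ?_) h
    unfold capBound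
    ring
  linarith

theorem size_q {δ β θ : ℝ} (hδ0 : 0 < δ) (hδ1 : δ ≤ 1) (hβ : 0 < β) (hθ0 : 0 ≤ θ) (hθ1 : θ < 1) :
    ∃ q : ℝ, 0 < q ∧ q < 2 ∧ ∃ d₀ : ℕ, ∀ d : ℕ, d₀ ≤ d →
      capBound d δ (θ ^ d) β ≤ q ^ d ∧ q ^ d ≤ 2 ^ d / 2 := by
  obtain ⟨q, hq0, hq2, N, hN⟩ :=
    (Pool.Agent.Results.MP_eba1ef_gt.CapsOfSmallVolume.result.2.2 δ β hδ0 hδ1 hβ).1 θ hθ0 hθ1
  obtain ⟨M, hM⟩ := Pool.Agent.Run7.h533.AC.q_half hq0 hq2
  exact ⟨q, hq0, hq2, N + M, fun d hd => ⟨hN d (by omega), hM d (by omega)⟩⟩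

/-- **Main theorem.** -/
theorem result :
    -- the shares are at most `d^(-N)`
    (∀ δ β : ℝ, 0 < δ → δ ≤ 1 → 0 < β → β ≤ 1 → ∃ N d₀ : ℕ, ∀ d : ℕ, d₀ ≤ d →
      ∀ K : Set (EuclideanSpace ℝ (Fin d)), Body K → ∫ x in K, x = 0 →
        HasShare β (thinPart K δ (1 / (d : ℝ) ^ N)) K ∨
          HasShare β (rotundPart K δ (1 / (d : ℝ) ^ N)) K → Boltyanski K) ∧
    (∀ δ : ℝ, 0 < δ → δ ≤ 1 → ∃ N d₀ : ℕ, ∀ d : ℕ, d₀ ≤ d →
      ∀ K : Set (EuclideanSpace ℝ (Fin d)), Body K → ∫ x in K, x = 0 →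
        FewFlatPairs K δ (1 / (d : ℝ) ^ N / 4) → Boltyanski K) ∧
    -- the shares are exponentially small; uniformly convex at a share of the boundary points
    (∀ δ β θ : ℝ, 0 < δ → δ ≤ 1 → 0 < β → β ≤ 1 → 0 ≤ θ → θ < 1 →
      ∃ q : ℝ, 0 < q ∧ q < 2 ∧ ∃ d₀ : ℕ, ∀ d : ℕ, d₀ ≤ d →
      ∀ K : Set (EuclideanSpace ℝ (Fin d)), Body K → ∫ x in K, x = 0 →
        HasShare β (thinPart K δ (θ ^ d)) K ∨ HasShare β (rotundPart K δ (θ ^ d)) K ∨
          HasShare β (uniformPart K δ θ) K → IlluminatedBy K (q ^ d) ∧ Boltyanski K) ∧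
    -- a share of the boundary points lies on spheres of balls which contain `K`
    (∀ κ β : ℝ, 0 < κ → κ ≤ 1 → 0 < β → β ≤ 1 →
      ∃ q : ℝ, 0 < q ∧ q < 2 ∧ ∃ d₀ : ℕ, ∀ d : ℕ, d₀ ≤ d →
      ∀ (K : Set (EuclideanSpace ℝ (Fin d))) (R : ℝ) (o : EuclideanSpace ℝ (Fin d)), Body K →
        ∫ x in K, x = 0 → 0 < R → closedBall o (κ * R) ⊆ K → HasShare β (curvedPart K R) K →
        IlluminatedBy K (q ^ d) ∧ Boltyanski K) := by
  have hres := Pool.Agent.Results.MP_eba1ef_gt.CapsOfSmallVolume.result.1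
  refine ⟨?_, ?_, ?_, ?_⟩
  · intro δ β hδ0 hδ1 hβ0 hβ1
    obtain ⟨N, d₀, hN⟩ := size_half hδ0 hδ1 hβ0
    refine ⟨N, d₀ + 2, fun d hd K hK hbar h => ?_⟩
    have hd1 : (1 : ℝ) ≤ d := by
      have : 1 ≤ d := by omega
      exact_mod_cast this
    have hτ : 1 / (d : ℝ) ^ N ≤ 1 := by
      rw [div_le_one (by positivity)]
      exact one_le_pow₀ hd1
    obtain ⟨h1, h2, -, -⟩ := (hres d K (by omega) hK hbar).1 β hβ0 hβ1
    rcases h with h | h
    · exact bolt_of_half (ill hK (h1 δ _ hδ0 hδ1 hτ h)) (hN d (by omega))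
    · exact bolt_of_half (ill hK (h2 δ _ hδ0 hδ1 hτ h)) (hN d (by omega))
  · intro δ hδ0 hδ1
    obtain ⟨N, d₀, hN⟩ := size_half (δ := δ / 2) (β := 1 / 2) (by linarith) (by linarith)
      (by norm_num)
    refine ⟨N, d₀ + ⌈2 / δ⌉₊ + 2, fun d hd K hK hbar h => ?_⟩
    have hd1 : (1 : ℝ) ≤ d := by
      have : 1 ≤ d := by omega
      exact_mod_cast this
    have hd2 : 2 / δ ≤ d := by
      have h1 : 2 / δ ≤ (⌈2 / δ⌉₊ : ℝ) := Nat.le_ceil _
      have h2 : ((⌈2 / δ⌉₊ : ℕ) : ℝ) ≤ d := by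
        have : ⌈2 / δ⌉₊ ≤ d := by omega
        exact_mod_cast this
      exact h1.trans h2
    rw [div_le_iff₀ hδ0] at hd2
    have hτ : 1 / (d : ℝ) ^ N ≤ 1 := by
      rw [div_le_one (by positivity)]
      exact one_le_pow₀ hd1
    have h4 : 4 * (1 / (d : ℝ) ^ N / 4) = 1 / (d : ℝ) ^ N := by ring
    have h1 := (hres d K (by omega) hK hbar).2 δ (1 / (d : ℝ) ^ N / 4) hδ0 hδ1 (by positivity)
      (by rw [h4]; exact hτ) (by linarith) h
    rw [h4] at h1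
    exact bolt_of_half (ill hK h1) (hN d (by omega))
  · intro δ β θ hδ0 hδ1 hβ0 hβ1 hθ0 hθ1
    obtain ⟨q, hq0, hq2, d₀, hN⟩ := size_q hδ0 hδ1 hβ0 hθ0 hθ1
    refine ⟨q, hq0, hq2, d₀ + 2, fun d hd K hK hbar h => ?_⟩
    obtain ⟨e1, e2⟩ := hN d (by omega)
    obtain ⟨h1, h2, h3, -⟩ := (hres d K (by omega) hK hbar).1 β hβ0 hβ1
    have hτ : θ ^ d ≤ 1 := pow_le_one₀ hθ0 hθ1.le
    have hI : IlluminatedBy K (capBound d δ (θ ^ d) β) := by
      rcases h with h | h | h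
      · exact ill hK (h1 δ _ hδ0 hδ1 hτ h)
      · exact ill hK (h2 δ _ hδ0 hδ1 hτ h)
      · exact ill hK (h3 δ θ hδ0 hδ1 hθ0 hθ1.le h)
    exact ⟨ill_mono hI e1, bolt_of_half hI (e1.trans e2)⟩
  · intro κ β hκ0 hκ1 hβ0 hβ1
    have hδ1 : κ ^ 2 / 16 ≤ 1 := by
      have : κ ^ 2 ≤ 1 := pow_le_one₀ hκ0.le hκ1
      linarith
    obtain ⟨q, hq0, hq2, d₀, hN⟩ := size_q (δ := κ ^ 2 / 16) (β := β) (θ := 1 / 2)
      (by positivity) hδ1 hβ0 (by norm_num) (by norm_num)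
    refine ⟨q, hq0, hq2, d₀ + 2, fun d hd K R o hK hbar hR ho h => ?_⟩
    obtain ⟨e1, e2⟩ := hN d (by omega)
    obtain ⟨-, -, -, h4⟩ := (hres d K (by omega) hK hbar).1 β hβ0 hβ1
    have hI := ill hK (h4 κ R o hκ0 hκ1 hR ho h)
    exact ⟨ill_mono hI e1, bolt_of_half hI (e1.trans e2)⟩

end Pool.Agent.Results.MP_80156a_co.ThinCaps
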